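import Pool.Agent.TH603.EL.Defs

/-! Transfer of multiplicities: job EL-F3 (any characteristic, by the chain rule). -/

set_option autoImplicit false

namespace Pool.Agent.TH312.EL

open Pool.Agent.TH603.EL

open MvPolynomial

variable {F : Type} [Field F]

namespace Van3

open Pool.Agent.TH176.Nag

/-- the derivation of the Laurent polynomials with weight `φ` -/
noncomputable def th (φ : ℤ × ℤ →+ ℤ) : Pool.Agent.TH603.EL.Lau F →+ Pool.Agent.TH603.EL.Lau F where
  toFun f := .ofCoeff (Finsupp.onFinset f.coeff.support (fun m => (φ m : F) * f.coeff m) (by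
    intro m hm
    rw [Finsupp.mem_support_iff]
    intro h
    apply hm
    simp [h]))
  map_zero' := by ext m; simp
  map_add' f g := by ext m; simp [mul_add]

theorem th_coeff (φ : ℤ × ℤ →+ ℤ) (f : Pool.Agent.TH603.EL.Lau F) (m : ℤ × ℤ) :
    (th φ f).coeff m = (φ m : F) * f.coeff m := rfl

theorem th_single (φ : ℤ × ℤ →+ ℤ) (m : ℤ × ℤ) (c : F) :
    th φ (AddMonoidAlgebra.single m c) = AddMonoidAlgebra.single m ((φ m : F) * c) := by
  classical
  ext n
  rw [th_coeff]
  simp only [AddMonoidAlgebra.coeff_single, Finsupp.single_apply]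
  split_ifs with h
  · rw [h]
  · simp

theorem th_mul (φ : ℤ × ℤ →+ ℤ) (f g : Pool.Agent.TH603.EL.Lau F) : th φ (f * g) = th φ f * g + f * th φ g := by
  induction f using AddMonoidAlgebra.induction_linear with
  | zero => simp
  | add f1 f2 h1 h2 => rw [add_mul, map_add, h1, h2, map_add]; ring
  | single m a =>
    induction g using AddMonoidAlgebra.induction_linear with
    | zero => simp
    | add g1 g2 h1 h2 => rw [mul_add, map_add, h1, h2, map_add]; ring
    | single n b =>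
      rw [AddMonoidAlgebra.single_mul_single, th_single, th_single, th_single,
        AddMonoidAlgebra.single_mul_single, AddMonoidAlgebra.single_mul_single,
        ← AddMonoidAlgebra.single_add, map_add]
      congr 1
      push_cast
      ring

/-- the derivation of the Hahn series with weight `φ` -/
noncomputable def D (φ : ℤ × ℤ →+ ℤ) : HR F →+ HR F where
  toFun u := u.map (th φ)
  map_zero' := by ext; simp
  map_add' u v := by ext; simp

theorem D_coeff (φ : ℤ × ℤ →+ ℤ) (u : HR F) (a : ℝ) :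
    (D φ u).coeff a = th φ (u.coeff a) := rfl

theorem D_mul (φ : ℤ × ℤ →+ ℤ) (u v : HR F) : D φ (u * v) = D φ u * v + u * D φ v := by
  have hs : ∀ u : HR F, (D φ u).support ⊆ u.support := by
    intro u a ha
    rw [HahnSeries.mem_support] at ha ⊢
    intro h
    apply ha
    rw [D_coeff, h, map_zero]
  refine HahnSeries.ext (funext fun a => ?_)
  rw [HahnSeries.coeff_add, HahnSeries.coeff_mul_left' u.isPWO_support (hs u),
    HahnSeries.coeff_mul_right' v.isPWO_support (hs v), D_coeff, HahnSeries.coeff_mul, map_sum,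
    ← Finset.sum_add_distrib]
  refine Finset.sum_congr rfl fun p _ => ?_
  rw [th_mul, D_coeff, D_coeff]

theorem D_incl (φ : ℤ × ℤ →+ ℤ) (c : HK F) : D φ (incl c) = 0 := by
  refine HahnSeries.ext (funext fun a => ?_)
  have h : (incl c).coeff a = AddMonoidAlgebra.single (0 : ℤ × ℤ) (c.coeff a) := rfl
  rw [D_coeff, h, th_single, map_zero, Int.cast_zero, zero_mul, AddMonoidAlgebra.single_zero]
  rfl

theorem D_pow (φ : ℤ × ℤ →+ ℤ) (u : HR F) (n : ℕ) :
    D φ (u ^ n) * u = (n : HR F) * u ^ n * D φ u := by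
  induction n with
  | zero =>
    have h : D φ (1 : HR F) = 0 := by
      have := D_incl φ (1 : HK F)
      rwa [map_one] at this
    simp [h]
  | succ n ih =>
    rw [pow_succ, D_mul, add_mul]
    have : D φ (u ^ n) * u * u = (n : HR F) * u ^ n * D φ u * u := by rw [ih]
    rw [this]
    push_cast
    ring

section V
variable {x y : F} (hx : x ≠ 0) (hy : y ≠ 0)

/-- all derivatives of order less than `w` vanish at the point -/
def V : ℕ → HR F → Prop
  | 0, _ => True
  | w + 1, u => evp hx hy u = 0 ∧ V w (D (AddMonoidHom.fst ℤ ℤ) u) ∧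
      V w (D (AddMonoidHom.snd ℤ ℤ) u)

theorem V_zero (w : ℕ) : V hx hy w 0 := by
  induction w with
  | zero => trivial
  | succ w ih => exact ⟨map_zero _, by rw [map_zero]; exact ih, by rw [map_zero]; exact ih⟩

theorem V_add {w : ℕ} {u v : HR F} (hu : V hx hy w u) (hv : V hx hy w v) :
    V hx hy w (u + v) := by
  induction w generalizing u v with
  | zero => trivial
  | succ w ih =>
    obtain ⟨a1, a2, a3⟩ := hu
    obtain ⟨b1, b2, b3⟩ := hv
    refine ⟨by rw [map_add, a1, b1, add_zero], ?_, ?_⟩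
    · rw [map_add]; exact ih a2 b2
    · rw [map_add]; exact ih a3 b3

theorem V_down {w : ℕ} {u : HR F} (hu : V hx hy (w + 1) u) : V hx hy w u := by
  induction w generalizing u with
  | zero => trivial
  | succ w ih =>
    obtain ⟨a1, a2, a3⟩ := hu
    exact ⟨a1, ih a2, ih a3⟩

theorem V_mul {w : ℕ} {u : HR F} (hu : V hx hy w u) (v : HR F) : V hx hy w (u * v) := by
  induction w generalizing u v with
  | zero => trivial
  | succ w ih =>
    have hd := V_down hx hy hu
    obtain ⟨a1, a2, a3⟩ := hu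
    refine ⟨by rw [map_mul, a1, zero_mul], ?_, ?_⟩
    · rw [D_mul]; exact V_add hx hy (ih a2 v) (ih hd _)
    · rw [D_mul]; exact V_add hx hy (ih a3 v) (ih hd _)

theorem V_cancel {w : ℕ} {U u : HR F} (hU : evp hx hy U ≠ 0) (hu : V hx hy w (U * u)) :
    V hx hy w u := by
  induction w generalizing u with
  | zero => trivial
  | succ w ih =>
    have hd := ih (V_down hx hy hu)
    obtain ⟨a1, a2, a3⟩ := hu
    rw [map_mul] at a1
    have key : ∀ φ : ℤ × ℤ →+ ℤ, V hx hy w (D φ (U * u)) → V hx hy w (D φ u) := by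
      intro φ h
      apply ih
      have e : U * D φ u = D φ (U * u) + u * (-(D φ U)) := by rw [D_mul]; ring
      rw [e]
      exact V_add hx hy h (V_mul hx hy hd _)
    exact ⟨(mul_eq_zero.1 a1).resolve_left hU, key _ a2, key _ a3⟩

theorem pr_eq_sum {K : Type} [Field K] (f : (ℤ × ℤ) →₀ K) (x y : K) (P : K × K → K)
    {s : Finset (ℤ × ℤ)} (hs : f.support ⊆ s) :
    pr f x y P = ∑ m ∈ s, f m * P ((m.1 : K), (m.2 : K)) * (x ^ m.1 * y ^ m.2) := by
  unfold pr
  exact Finsupp.sum_of_support_subset _ hs _ (by intro m _; simp)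

theorem pr_one (f : Pool.Agent.TH603.EL.Lau F) : pr f.coeff x y (fun _ => 1) = evL x y hx hy f := by
  unfold evL
  rw [AddMonoidAlgebra.lift_apply]
  unfold pr
  refine Finsupp.sum_congr fun m _ => ?_
  rw [mul_one, smul_eq_mul]
  rfl

theorem pr_th (φ : ℤ × ℤ →+ ℤ) (f : Pool.Agent.TH603.EL.Lau F) (P Q : F × F → F)
    (h : ∀ m : ℤ × ℤ, Q ((m.1 : F), (m.2 : F)) = (φ m : F) * P ((m.1 : F), (m.2 : F))) :
    pr (th φ f).coeff x y P = pr f.coeff x y Q := by
  have hs : (th φ f).coeff.support ⊆ f.coeff.support := by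
    intro m hm
    rw [Finsupp.mem_support_iff] at hm ⊢
    intro h
    apply hm
    rw [th_coeff, h, mul_zero]
  rw [pr_eq_sum _ x y P hs, pr_eq_sum f.coeff x y Q (Finset.Subset.refl _)]
  refine Finset.sum_congr rfl fun m _ => ?_
  rw [th_coeff, h]
  ring

theorem V_LM {w : ℕ} {u : HR F} (hu : V hx hy w u) (c : ℝ) : LM (u.coeff c).coeff x y w := by
  apply LM_of_mono
  intro a b hab
  induction w generalizing u a b with
  | zero => omega
  | succ w ih =>
    obtain ⟨a1, a2, a3⟩ := hu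
    rcases Nat.eq_zero_or_pos a with ha | ha
    · rcases Nat.eq_zero_or_pos b with hb | hb
      · subst ha hb
        have h1 : (fun u : F × F => u.1 ^ 0 * u.2 ^ 0) = fun _ => 1 := by
          funext u; simp
        rw [h1, pr_one hx hy, ← evp_coeff, a1]
        rfl
      · obtain ⟨b, rfl⟩ : ∃ b', b = b' + 1 := ⟨b - 1, by omega⟩
        have := ih a3 a b (by omega)
        rw [D_coeff, pr_th (AddMonoidHom.snd ℤ ℤ) _ _ (fun u : F × F => u.1 ^ a * u.2 ^ (b + 1))
          (by intro m; simp only [AddMonoidHom.coe_snd]; ring)] at this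
        exact this
    · obtain ⟨a, rfl⟩ : ∃ a', a = a' + 1 := ⟨a - 1, by omega⟩
      have := ih a2 a b (by omega)
      rw [D_coeff, pr_th (AddMonoidHom.fst ℤ ℤ) _ _ (fun u : F × F => u.1 ^ (a + 1) * u.2 ^ b)
        (by intro m; simp only [AddMonoidHom.coe_fst]; ring)] at this
      exact this

end V

/-- the value of the form attached to `f` -/
noncomputable def T (d : ℕ) (U : ZMod 3 → HR F) (f : (ℤ × ℤ) →₀ HK F) : HR F :=
  f.sum fun m c => incl c * (U 0 ^ ((d : ℤ) - m.1 - m.2).toNat * U 1 ^ m.1.toNat * U 2 ^ m.2.toNat)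

theorem ev_hom (d : ℕ) (U : ZMod 3 → HR F) (f : (ℤ × ℤ) →₀ HK F) :
    ev U (hom d f) = T d U f := by
  unfold hom T
  rw [map_finsuppSum]
  refine Finsupp.sum_congr fun m _ => ?_
  simp only [ev, map_mul, map_pow, coe_eval₂Hom, eval₂_C, eval₂_X]

theorem T_eq_sum (d : ℕ) (U : ZMod 3 → HR F) (f : (ℤ × ℤ) →₀ HK F) {s : Finset (ℤ × ℤ)}
    (hs : f.support ⊆ s) : T d U f = ∑ m ∈ s, incl (f m) *
      (U 0 ^ ((d : ℤ) - m.1 - m.2).toNat * U 1 ^ m.1.toNat * U 2 ^ m.2.toNat) := by
  unfold T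
  exact Finsupp.sum_of_support_subset _ hs _ (by intro m _; simp)

/-- multiplication of the coefficients by a weight -/
noncomputable def wt (e : ℤ × ℤ → ℤ) (f : (ℤ × ℤ) →₀ HK F) : (ℤ × ℤ) →₀ HK F :=
  Finsupp.onFinset f.support (fun m => (e m : HK F) * f m) (by
    intro m hm
    rw [Finsupp.mem_support_iff]
    intro h
    apply hm
    simp [h])

theorem wt_apply (e : ℤ × ℤ → ℤ) (f : (ℤ × ℤ) →₀ HK F) (m : ℤ × ℤ) :
    wt e f m = (e m : HK F) * f m := rfl

theorem wt_support (e : ℤ × ℤ → ℤ) (f : (ℤ × ℤ) →₀ HK F) : (wt e f).support ⊆ f.support :=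
  Finsupp.support_onFinset_subset

theorem wt_LM {f : (ℤ × ℤ) →₀ HK F} {p q : HK F} {w : ℕ} (h : LM f p q (w + 1))
    (e : ℤ × ℤ → ℤ) (c0 c1 c2 : ℤ) (he : ∀ m, e m = c0 + c1 * m.1 + c2 * m.2) :
    LM (wt e f) p q w := by
  intro P hP
  rw [pr_eq_sum _ p q P (wt_support e f)]
  have := h _ (PF_mul_aff hP (c0 : HK F) (c1 : HK F) (c2 : HK F))
  rw [pr_eq_sum _ p q _ (Finset.Subset.refl _)] at this
  rw [← this]
  refine Finset.sum_congr rfl fun m _ => ?_
  rw [wt_apply, he]
  push_cast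
  ring

theorem evp_incl {x y : F} (hx : x ≠ 0) (hy : y ≠ 0) (c : HK F) : evp hx hy (incl c) = c := by
  refine HahnSeries.ext (funext fun a => ?_)
  have h : (incl c).coeff a = AddMonoidAlgebra.single (0 : ℤ × ℤ) (c.coeff a) := rfl
  rw [evp_coeff, h, evL, AddMonoidAlgebra.lift_single]
  simp [chr]

theorem main {x y : F} (hx : x ≠ 0) (hy : y ≠ 0) {U : ZMod 3 → HR F}
    (hU : ∀ l, evp hx hy (U l) ≠ 0) {d : ℕ} {w : ℕ} : ∀ {f : (ℤ × ℤ) →₀ HK F},
    (∀ m ∈ f.support, 0 ≤ m.1 ∧ 0 ≤ m.2 ∧ m.1 + m.2 ≤ d) →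
    LM f (evp hx hy (U 1) / evp hx hy (U 0)) (evp hx hy (U 2) / evp hx hy (U 0)) w →
    V hx hy w (T d U f) := by
  induction w with
  | zero => intro f _ _; trivial
  | succ w ih =>
    intro f hf h
    have key : ∀ φ : ℤ × ℤ →+ ℤ, V hx hy w (D φ (T d U f)) := by
      intro φ
      have hT : ∀ (e : ℤ × ℤ → ℤ) (c0 c1 c2 : ℤ), (∀ m, e m = c0 + c1 * m.1 + c2 * m.2) →
          V hx hy w (T d U (wt e f)) := by
        intro e c0 c1 c2 he
        exact ih (fun m hm => hf m (wt_support e f hm)) (wt_LM h e c0 c1 c2 he)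
      have h0 := hT (fun m => d - m.1 - m.2) d (-1) (-1) (by intro m; ring)
      have h1 := hT (fun m => m.1) 0 1 0 (by intro m; ring)
      have h2 := hT (fun m => m.2) 0 0 1 (by intro m; ring)
      have hne : evp hx hy (U 0 * U 1 * U 2) ≠ 0 := by
        rw [map_mul, map_mul]
        exact mul_ne_zero (mul_ne_zero (hU 0) (hU 1)) (hU 2)
      apply V_cancel hx hy hne
      have e : U 0 * U 1 * U 2 * D φ (T d U f) =
          T d U (wt (fun m => d - m.1 - m.2) f) * (U 1 * U 2 * D φ (U 0)) +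
          T d U (wt (fun m => m.1) f) * (U 0 * U 2 * D φ (U 1)) +
          T d U (wt (fun m => m.2) f) * (U 0 * U 1 * D φ (U 2)) := by
        rw [T_eq_sum d U f (Finset.Subset.refl _), T_eq_sum d U _ (wt_support _ f),
          T_eq_sum d U _ (wt_support _ f), T_eq_sum d U _ (wt_support _ f), map_sum,
          Finset.mul_sum, Finset.sum_mul, Finset.sum_mul, Finset.sum_mul,
          ← Finset.sum_add_distrib, ← Finset.sum_add_distrib]
        refine Finset.sum_congr rfl fun m hm => ?_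
        obtain ⟨hm1, hm2, hm3⟩ := hf m hm
        obtain ⟨a, ha⟩ := Int.eq_ofNat_of_zero_le (show 0 ≤ (d : ℤ) - m.1 - m.2 by omega)
        obtain ⟨b, hb⟩ := Int.eq_ofNat_of_zero_le hm1
        obtain ⟨g, hg⟩ := Int.eq_ofNat_of_zero_le hm2
        rw [hb, hg] at ha
        simp only [wt_apply, hb, hg]
        simp only [ha, Int.toNat_natCast, map_mul, map_natCast, Int.cast_natCast]
        rw [D_mul, D_incl, D_mul, D_mul]
        have e0 := D_pow φ (U 0) a
        have e1 := D_pow φ (U 1) b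
        have e2 := D_pow φ (U 2) g
        linear_combination (incl (f m) * U 1 ^ b * U 2 ^ g * U 1 * U 2) * e0 +
          (incl (f m) * U 0 ^ a * U 2 ^ g * U 0 * U 2) * e1 +
          (incl (f m) * U 0 ^ a * U 1 ^ b * U 0 * U 1) * e2
      rw [e]
      exact V_add hx hy (V_add hx hy (V_mul hx hy h0 _) (V_mul hx hy h1 _)) (V_mul hx hy h2 _)
    refine ⟨?_, key _, key _⟩
    have h3 := h _ (PF_const (1 : HK F) (w := w + 1) (by omega))
    rw [pr_eq_sum _ _ _ _ (Finset.Subset.refl _)] at h3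
    have e : evp hx hy (T d U f) = evp hx hy (U 0) ^ d * ∑ m ∈ f.support,
        f m * 1 * ((evp hx hy (U 1) / evp hx hy (U 0)) ^ m.1 *
          (evp hx hy (U 2) / evp hx hy (U 0)) ^ m.2) := by
      rw [T_eq_sum d U f (Finset.Subset.refl _), map_sum, Finset.mul_sum]
      refine Finset.sum_congr rfl fun m hm => ?_
      obtain ⟨hm1, hm2, hm3⟩ := hf m hm
      obtain ⟨a, ha⟩ := Int.eq_ofNat_of_zero_le (show 0 ≤ (d : ℤ) - m.1 - m.2 by omega)
      obtain ⟨b, hb⟩ := Int.eq_ofNat_of_zero_le hm1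
      obtain ⟨g, hg⟩ := Int.eq_ofNat_of_zero_le hm2
      rw [hb, hg] at ha
      have hd : d = a + b + g := by omega
      simp only [map_mul, map_pow, evp_incl, hb, hg]
      simp only [ha, Int.toNat_natCast, zpow_natCast, div_pow]
      have hU0 := hU 0
      rw [hd, pow_add, pow_add]
      field_simp
    rw [e, h3, mul_zero]

end Van3

theorem LM_transfer {x y : F} (hx : x ≠ 0) (hy : y ≠ 0) {U : ZMod 3 → HR F}
    (hU : ∀ l, evp hx hy (U l) ≠ 0) {d : ℕ} {f : (ℤ × ℤ) →₀ HK F}
    (hf : ∀ m ∈ f.support, 0 ≤ m.1 ∧ 0 ≤ m.2 ∧ m.1 + m.2 ≤ d) {w : ℕ}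
    (h : Pool.Agent.TH176.Nag.LM f (evp hx hy (U 1) / evp hx hy (U 0))
      (evp hx hy (U 2) / evp hx hy (U 0)) w) (a : ℝ) :
    Pool.Agent.TH176.Nag.LM ((ev U (hom d f)).coeff a).coeff x y w := by
  rw [Van3.ev_hom]
  exact Van3.V_LM hx hy (Van3.main hx hy hU hf h) a

end Pool.Agent.TH312.EL
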